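import Pool.Agent.helper41.HFE.Spec

/-!
# Project HFE (MP_3221a1_ag), row CIL: complete intersections
-/

set_option autoImplicit false

open Polynomial Module Pool.Agent.HFN

namespace Pool.Agent.HFE

noncomputable section

/-- the codimension of the sum -/
def CIL_e (J : Ideal AA) (m n : ℕ) : ℕ := finrank ℂ (AA ⧸ (V m n ⊔ J.restrictScalars ℂ : Submodule ℂ AA))

theorem CIL_zero {J : Ideal AA} {m n : ℕ} (h : (V m n ⊔ J.restrictScalars ℂ : Submodule ℂ AA) = ⊤) : CIL_e J m n = 0 := by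
  unfold CIL_e
  rw [h]
  have : Subsingleton (AA ⧸ (⊤ : Submodule ℂ AA)) := Submodule.Quotient.subsingleton_iff.2 rfl
  exact finrank_zero_of_subsingleton

theorem CIL_top {J : Ideal AA} (hJ : Fc J) {m n : ℕ} (h : CIL_e J m n = 0) : (V m n ⊔ J.restrictScalars ℂ : Submodule ℂ AA) = ⊤ := by
  unfold CIL_e at h
  unfold Fc at hJ
  have h' : (J.restrictScalars ℂ : Submodule ℂ AA) ≤ V m n ⊔ J.restrictScalars ℂ := le_sup_right
  have : FiniteDimensional ℂ (AA ⧸ (V m n ⊔ J.restrictScalars ℂ : Submodule ℂ AA)) :=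
    Module.Finite.of_surjective (Submodule.factor h') (Submodule.factor_surjective h')
  have h2 := Module.finrank_zero_iff.1 h
  exact Submodule.Quotient.subsingleton_iff.1 h2

/-- monotone sequences -/
theorem CIL_mono (u : ℕ → ℕ) (a : ℕ) (h : ∀ n, a ≤ n → u n ≤ u (n + 1)) : ∀ n, a ≤ n → u a ≤ u n := by
  intro n hn
  induction n, hn using Nat.le_induction with
  | base => exact le_rfl
  | succ n hn ih => exact ih.trans (h n hn)

theorem CIL (hCIX : CIX_stmt) (hCIY : CIY_stmt) (hDFQ : DFQ_stmt) (hLRG : LRG_stmt) : CIL_stmt := by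
  intro φ F G s t i j hFc hφ hF hG hrel hF0 hGV h1 h2 h3 h4 hor
  obtain ⟨N, hN⟩ := hLRG (An φ) hFc
  have hD : ∀ m n : ℕ, CIL_e (An φ) m n + (m + 1) * (n + 1) = hd (An φ) m n + cod (An φ) := hDFQ (An φ) hFc
  have hX : ∀ m n : ℕ, dX F ≤ m + 1 → s ≤ m + 1 → dY F + t ≤ n + 1 → CIL_e (An φ) m n ≤ CIL_e (An φ) (m + 1) n := by
    intro m n g1 g2 g3
    have e1 := hCIX (An φ) F G s t m n hF hG hrel hF0 hGV g1 g2 g3
    have e2 := hD m n
    have e3 := hD (m + 1) n
    have e4 : (m + 1 + 1) * (n + 1) = (m + 1) * (n + 1) + (n + 1) := by ring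
    omega
  have hY : ∀ m n : ℕ, dY F ≤ n + 1 → t ≤ n + 1 → dX F + s ≤ m + 1 → CIL_e (An φ) m n ≤ CIL_e (An φ) m (n + 1) := by
    intro m n g1 g2 g3
    have e1 := hCIY (An φ) F G s t m n hF hG hrel hF0 hGV g1 g2 g3
    have e2 := hD m n
    have e3 := hD m (n + 1)
    have e4 : (m + 1) * (n + 1 + 1) = (m + 1) * (n + 1) + (m + 1) := by ring
    omega
  have h0 : CIL_e (An φ) i j = 0 := by
    apply Nat.le_zero.1
    rcases hor with hor | hor
    · have k1 := CIL_mono (fun n => CIL_e (An φ) i n) j (fun n hn => hY i n (by omega) (by omega) hor) (j + N + dY F + t) (by omega)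
      have k2 := CIL_mono (fun m => CIL_e (An φ) m (j + N + dY F + t)) i (fun m hm => hX m _ (by omega) (by omega) (by omega)) (i + N) (by omega)
      have k3 := CIL_zero (hN (i + N) (j + N + dY F + t) (by omega) (by omega))
      change CIL_e (An φ) i j ≤ CIL_e (An φ) i (j + N + dY F + t) at k1
      change CIL_e (An φ) i (j + N + dY F + t) ≤ CIL_e (An φ) (i + N) (j + N + dY F + t) at k2
      omega
    · have k1 := CIL_mono (fun m => CIL_e (An φ) m j) i (fun m hm => hX m j (by omega) (by omega) hor) (i + N + dX F + s) (by omega)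
      have k2 := CIL_mono (fun n => CIL_e (An φ) (i + N + dX F + s) n) j (fun n hn => hY _ n (by omega) (by omega) (by omega)) (j + N) (by omega)
      have k3 := CIL_zero (hN (i + N + dX F + s) (j + N) (by omega) (by omega))
      change CIL_e (An φ) i j ≤ CIL_e (An φ) (i + N + dX F + s) j at k1
      change CIL_e (An φ) (i + N + dX F + s) j ≤ CIL_e (An φ) (i + N + dX F + s) (j + N) at k2
      omega
  exact eq_zero_of_top hφ (CIL_top hFc h0)

end

end Pool.Agent.HFE
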